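import Mathlib
import Pool.Agent.H.MP_f12303_co.A
set_option autoImplicit false

namespace Pool.Agent.Results.MP_f12303_co.Yes
open Finset Filter Pool.Agent.H.MP_f12303_co

variable {n : ℕ}

/-- adjacency in `ℤ^n`: Euclidean distance one -/
def Adj (x y : Fin n → ℤ) : Prop := ∑ i, (x i - y i) ^ 2 = 1

/-- vertex boundary `δΩ` -/
def vb (Ω : Set (Fin n → ℤ)) : Set (Fin n → ℤ) := {x | x ∈ Ω ∧ ∃ y, y ∉ Ω ∧ Adj x y}

/-- exterior vertex boundary `τΩ` -/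
def ext (Ω : Set (Fin n → ℤ)) : Set (Fin n → ℤ) := {z | z ∉ Ω ∧ ∃ w, w ∈ Ω ∧ Adj z w}

/-- closure `Ω ∪ τΩ` -/
def cl (Ω : Set (Fin n → ℤ)) : Set (Fin n → ℤ) := Ω ∪ ext Ω

/-- edge boundary `∂Ω`: edges with exactly one endpoint in `Ω` -/
def eb (Ω : Set (Fin n → ℤ)) : Set (Sym2 (Fin n → ℤ)) :=
  {e | ∃ x y, e = s(x, y) ∧ Adj x y ∧ x ∈ Ω ∧ y ∉ Ω}

/-- the edge set `E_Ω` -/
def EE (Ω : Set (Fin n → ℤ)) : Set (Sym2 (Fin n → ℤ)) :=
  {e | ∃ x y, e = s(x, y) ∧ Adj x y ∧ x ∈ Ω ∧ y ∈ cl Ω}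

/-- `K` has least perimeter in `U` -/
def Least (U K : Set (Fin n → ℤ)) : Prop :=
  K ⊆ cl U ∧ ∀ K' ⊆ cl U, K' ∩ ext U = K ∩ ext U → (eb K ∩ EE U).ncard ≤ (eb K' ∩ EE U).ncard

/-- minimal subgraph -/
def Minimal (M : Set (Fin n → ℤ)) : Prop :=
  M.Nonempty ∧ M ≠ Set.univ ∧ ∀ U : Set (Fin n → ℤ), U.Finite → Least U (M ∩ cl U)

/-- lattice points of the cube `B_r(x)` -/
def ball (x : Fin n → ℤ) (r : ℝ) : Set (Fin n → ℤ) := {y | ∀ i, |(y i : ℝ) - x i| ≤ r}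

theorem adj_coord {x y : Fin n → ℤ} (h : Adj x y) (i : Fin n) :
    (x i - y i) ^ 2 ≤ 1 ∧ ∀ j, j ≠ i → x i ≠ y i → x j = y j := by
  refine ⟨h ▸ single_le_sum (f := fun i => (x i - y i) ^ 2) (fun _ _ => sq_nonneg _) (mem_univ i),
    fun j hj hi => ?_⟩
  have h1 := sum_le_sum_of_subset_of_nonneg (f := fun i => (x i - y i) ^ 2) (subset_univ {j, i})
    fun _ _ _ => sq_nonneg _
  rw [sum_pair hj, h] at h1
  have h2 := sq_pos_of_ne_zero (sub_ne_zero.2 hi)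
  exact sub_eq_zero.1 (pow_eq_zero_iff two_ne_zero |>.1 (le_antisymm (by omega) (sq_nonneg _)))

theorem adj_upd (x : Fin n → ℤ) (i : Fin n) (t : ℤ) (ht : (x i - t) ^ 2 = 1) :
    Adj x (Function.update x i t) := by
  rw [Adj, sum_eq_single i (fun j _ h => by simp [h]) (by simp)]
  simpa using ht

theorem adj_symm {x y : Fin n → ℤ} (h : Adj x y) : Adj y x := by
  rw [Adj, ← h]
  exact sum_congr rfl fun i _ => by ring

def proj (c : Fin n → ℤ) (r : ℕ) (y : Fin n → ℤ) : Fin n → ℤ :=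
  fun i => max (c i - r) (min (c i + r) (y i))

theorem near {c x y : Fin n → ℤ} {r : ℕ} (hx : x ∈ cube c r) (h : Adj x y) :
    y ∈ cube c (r + 1) ∧ (y ∉ cube c r → x = proj c r y) := by
  rw [mem_cube] at *
  have a : ∀ i, x i - y i ≤ 1 ∧ -1 ≤ x i - y i := fun i => by
    have := (adj_coord h i).1
    constructor <;> nlinarith
  refine ⟨fun i => ?_, fun hy => funext fun j => ?_⟩
  · have := a i
    have := hx i
    push_cast
    omega
  · rw [mem_cube, not_forall] at hy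
    obtain ⟨i, hi⟩ := hy
    have h1 := hx i
    have h2 := hx j
    have h3 := a j
    by_cases e : j = i
    · subst e
      simp only [proj]
      omega
    · have := (adj_coord h i).2 j e (by omega)
      simp only [proj]
      omega

theorem finE (c : Fin n → ℤ) (r : ℕ) : (EE (cube c r : Set (Fin n → ℤ))).Finite := by
  refine ((cube c r ×ˢ cube c (r + 1)).finite_toSet.image fun p => s(p.1, p.2)).subset ?_
  rintro _ ⟨x, y, rfl, h, hx, -⟩
  exact ⟨(x, y), mem_coe.2 (mem_product.2 ⟨hx, (near hx h).1⟩), rfl⟩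

theorem ebc (U K : Set (Fin n → ℤ)) : eb (cl U \ K) ∩ EE U = eb (K ∩ cl U) ∩ EE U := by
  ext e
  refine and_congr_left fun ⟨a, b, e1, _, ha, hb⟩ => ?_
  have m : ∀ x ∈ e, x ∈ cl U := fun x hx => by
    rw [e1, Sym2.mem_iff] at hx
    rcases hx with rfl | rfl
    exacts [Or.inl ha, hb]
  constructor
  · rintro ⟨x, y, rfl, h, hx, hy⟩
    have := m y (by simp)
    exact ⟨y, x, Sym2.eq_swap, adj_symm h, ⟨by_contra fun h => hy ⟨this, h⟩, this⟩,
      fun h => hx.2 h.1⟩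
  · rintro ⟨x, y, rfl, h, hx, hy⟩
    have := m y (by simp)
    exact ⟨y, x, Sym2.eq_swap, adj_symm h, ⟨this, fun h => hy ⟨h, this⟩⟩, fun h => h.2 hx.1⟩

theorem compl (U M : Set (Fin n → ℤ)) (h : Least U (M ∩ cl U)) : Least U (Mᶜ ∩ cl U) := by
  refine ⟨Set.inter_subset_right, fun K hK hK' => ?_⟩
  have h1 := h.2 (cl U \ K) Set.sdiff_subset (by
    ext x
    have := Set.ext_iff.1 hK' x
    simp only [cl, Set.mem_inter_iff, Set.mem_sdiff, Set.mem_union, Set.mem_compl_iff] at this ⊢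
    tauto)
  rw [ebc, Set.inter_eq_left.2 hK, ← ebc] at h1
  rwa [Set.inter_comm Mᶜ, ← Set.sdiff_eq]

open Classical in
theorem dens (d : ℕ) (M : Set (Fin (d + 1) → ℤ)) (c : Fin (d + 1) → ℤ) (hc : c ∈ M)
    (h : ∀ r : ℕ, Least (cube c r) (M ∩ cl (cube c r))) (r : ℕ) :
    (1 + r * (1 / ((d + 1) * 2 ^ (d + 1)) : ℝ)) ^ (d + 1) ≤ ((cube c r).filter (· ∈ M)).card := by
  have sub : ∀ r : ℕ, (cube c r).filter (· ∈ M) ⊆ (cube c (r + 1)).filter (· ∈ M) := fun r =>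
    filter_subset_filter _ fun y hy => mem_cube.2 fun i => by
      have := mem_cube.1 hy i
      push_cast
      omega
  have ne : ∀ r : ℕ, ((cube c r).filter (· ∈ M)).Nonempty := fun r =>
    ⟨c, mem_filter.2 ⟨mem_cube.2 fun i => by omega, hc⟩⟩
  refine grow d (fun r => ((cube c r).filter (· ∈ M)).card) (card_pos.2 (ne 0))
    (fun r => card_le_card (sub r)) (fun r => (iso d _ (ne r)).trans
      (pow_le_pow_left₀ (by positivity) ?_ _)) r
  set A := (cube c r).filter (· ∈ M) with hA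
  set D := (cube c (r + 1)).filter (· ∈ M) \ A with hD
  have e : ∀ p : (Fin (d + 1) → ℤ) × Fin (d + 1), Adj p.1 (p.1 + Pi.single p.2 1) := fun p => by
    convert adj_upd p.1 p.2 (p.1 p.2 + 1) (by ring) using 1
    ext j
    by_cases h : j = p.2 <;> simp [h]
  have inj : ∀ p q : (Fin (d + 1) → ℤ) × Fin (d + 1), p.1 = q.1 →
      p.1 + Pi.single p.2 1 = q.1 + Pi.single q.2 1 → p = q := fun p q h1 h2 => by
    refine Prod.ext h1 (by_contra fun h => ?_)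
    simpa [h1, h] using congrFun h2 p.2
  have mD : ∀ x y, x ∈ cube c r → Adj x y → y ∈ M → y ∉ cube c r → y ∈ D := fun x y hx h1 h2 h3 =>
    mem_sdiff.2 ⟨mem_filter.2 ⟨(near hx h1).1, h2⟩, fun h => h3 (mem_filter.1 h).1⟩
  have h1 : ((up A).filter fun p => p.1 + Pi.single p.2 1 ∈ M).card ≤ D.card := by
    have k : ∀ p ∈ (up A).filter fun p => p.1 + Pi.single p.2 1 ∈ M,
        p.1 ∈ cube c r ∧ p.1 + Pi.single p.2 1 ∉ cube c r := fun p hp => by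
      obtain ⟨a1, a2⟩ := mem_filter.1 hp
      obtain ⟨a3, a4⟩ := mem_filter.1 a1
      exact ⟨(mem_filter.1 (mem_product.1 a3).1).1, fun h => a4 (mem_filter.2 ⟨h, a2⟩)⟩
    refine card_le_card_of_injOn (fun p => p.1 + Pi.single p.2 1) (fun p hp => mem_coe.2
      (mD _ _ (k p hp).1 (e p) (mem_filter.1 hp).2 (k p hp).2)) fun p hp q hq h => inj p q ?_ h
    rw [(near (k p hp).1 (e p)).2 (k p hp).2, (near (k q hq).1 (e q)).2 (k q hq).2]
    exact congrArg _ h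
  have h2 : ((up A).filter fun p => ¬ p.1 + Pi.single p.2 1 ∈ M).card ≤
      (eb (M ∩ cl (cube c r)) ∩ EE (cube c r)).ncard := by
    have k : ∀ p ∈ (up A).filter fun p => ¬ p.1 + Pi.single p.2 1 ∈ M, p.1 ∈ cube c r ∧ p.1 ∈ M :=
      fun p hp => mem_filter.1 (mem_product.1 (mem_filter.1 (mem_filter.1 hp).1).1).1
    rw [← Set.ncard_coe_finset]
    refine Set.ncard_le_ncard_of_injOn (fun p => s(p.1, p.1 + Pi.single p.2 1)) (fun p hp =>
      ⟨⟨_, _, rfl, e p, ⟨(k p hp).2, Or.inl (k p hp).1⟩, fun h => (mem_filter.1 hp).2 h.1⟩,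
        _, _, rfl, e p, (k p hp).1, by_contra fun h => h (Or.inr ⟨fun h' => h (Or.inl h'), _,
          (k p hp).1, adj_symm (e p)⟩)⟩) (fun p hp q hq h => ?_)
      ((finE c r).subset Set.inter_subset_right)
    rcases Sym2.eq_iff.1 h with h | h
    · exact inj p q h.1 h.2
    · exact absurd (h.1 ▸ (k p hp).2) (mem_filter.1 hq).2
  have h3 : (eb (M ∩ ext (cube c r)) ∩ EE (cube c r)).ncard ≤ D.card := by
    rw [← Set.ncard_coe_finset]
    refine le_trans (Set.ncard_le_ncard ?_ (D.finite_toSet.image _))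
      (Set.ncard_image_le (f := fun y => s(y, proj c r y)) D.finite_toSet)
    rintro _ ⟨⟨x, y, rfl, a1, a2, a3⟩, a, b, a4, a5, a6, -⟩
    rcases Sym2.eq_iff.1 a4 with ⟨rfl, rfl⟩ | ⟨rfl, rfl⟩
    · exact absurd a6 a2.2.1
    · exact ⟨x, mD _ _ a6 a5 a2.1 a2.2.1, by
        dsimp only
        rw [← (near a6 a5).2 a2.2.1]⟩
  have h4 := (h r).2 (M ∩ ext (cube c r)) (fun x hx => Or.inr hx.2) (by
    ext x
    simp only [cl, Set.mem_inter_iff, Set.mem_union]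
    tauto)
  have h5 := card_filter_add_card_filter_not (s := up A) fun p => p.1 + Pi.single p.2 1 ∈ M
  have h6 : D.card + A.card = _ := card_sdiff_add_card_eq_card (sub r)
  have h7 : (up A).card ≤ 2 * D.card := by omega
  rw [← h6]
  push_cast
  rw [add_sub_cancel_right]
  exact_mod_cast h7

theorem result (n : ℕ) (hn : 1 ≤ n) : ∃ c₂ c₄ : ℝ, 0 < c₂ ∧ 0 < c₄ ∧
    ∀ M : Set (Fin n → ℤ), Minimal M → ∀ x ∈ M, ∀ᶠ r : ℝ in atTop,
      c₂ * r ^ n ≤ (M ∩ ball x r).ncard ∧ c₄ * r ^ (n - 1) ≤ (vb M ∩ ball x r).ncard := by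
  classical
  obtain ⟨d, rfl⟩ : ∃ d, n = d + 1 := ⟨n - 1, by omega⟩
  set e : ℝ := 1 / ((d + 1) * 2 ^ (d + 1)) with he
  have e0 : 0 < e := by positivity
  have e1 : e ≤ 1 := (div_le_one (by positivity)).2
    (one_le_mul_of_one_le_of_one_le (by linarith [(Nat.cast_nonneg d : (0 : ℝ) ≤ d)])
      (one_le_pow₀ one_le_two))
  refine ⟨e ^ (d + 1), e ^ (d + 1) * (e / 2) ^ (d + 1) / ((d + 1) * 3 ^ (d + 2)), by positivity,
    by positivity, fun M hM x hx => ?_⟩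
  obtain ⟨y, hy⟩ := (Set.ne_univ_iff_exists_notMem M).1 hM.2.1
  obtain ⟨ρ, hρ⟩ : ∃ ρ : ℕ, ∀ i, (y i - x i).natAbs ≤ ρ :=
    ⟨_, fun i => le_sup (f := fun i => (y i - x i).natAbs) (mem_univ i)⟩
  filter_upwards [eventually_ge_atTop (2 * ρ + 1 : ℝ)] with r hr
  have ρ0 : (0 : ℝ) ≤ ρ := by positivity
  have r0 : 0 < r := by linarith
  have b : ∀ N : Set (Fin (d + 1) → ℤ), ((N ∩ ball x r).ncard : ℝ) =
      ((cube x ⌊r⌋₊).filter (· ∈ N)).card := fun N => by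
    rw [← Set.ncard_coe_finset]
    congr 2
    ext z
    simp only [ball, Set.mem_inter_iff, Set.mem_ofPred_eq, coe_filter, mem_cube, and_comm]
    refine and_congr_right fun _ => forall_congr' fun i => ?_
    rw [← Int.cast_sub, ← Int.cast_abs, Int.abs_eq_natAbs, Int.cast_natCast, ← Nat.le_floor_iff r0.le]
    omega
  have f1 := Nat.floor_le r0.le
  have f2 := Nat.lt_floor_add_one r
  have f3 : ρ ≤ ⌊r⌋₊ := Nat.le_floor (by linarith)
  have h1 := dens d M x hx (fun r => hM.2.2 _ (finite_toSet _)) ⌊r⌋₊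
  have h2 := dens d Mᶜ y hy (fun r => compl _ _ (hM.2.2 _ (finite_toSet _))) (⌊r⌋₊ - ρ)
  rw [← he] at h1 h2
  rw [Nat.cast_sub f3] at h2
  have h3 : (e * r) ^ (d + 1) ≤ ((cube x ⌊r⌋₊).filter (· ∈ M)).card :=
    (pow_le_pow_left₀ (by positivity) (by nlinarith) _).trans h1
  have h4 : (e / 2 * r) ^ (d + 1) ≤ ((cube y (⌊r⌋₊ - ρ)).filter (· ∈ Mᶜ)).card := by
    have t : e / 2 * r ≤ 1 + (⌊r⌋₊ - ρ) * e := by
      nlinarith [mul_le_mul_of_nonneg_left (show r / 2 ≤ ⌊r⌋₊ - ρ + 1 by linarith) e0.le]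
    exact (pow_le_pow_left₀ (by positivity) t _).trans (h2.trans (le_of_eq (by congr)))
  have h5 := hyb x ⌊r⌋₊ ((cube x ⌊r⌋₊).filter (· ∈ M)) ((cube y (⌊r⌋₊ - ρ)).filter (· ∈ Mᶜ))
    ((cube x ⌊r⌋₊).filter (· ∈ vb M)) M (fun z hz => mem_filter.1 hz)
    (fun z hz => ⟨mem_cube.2 fun i => by
      have := mem_cube.1 (mem_filter.1 hz).1 i
      have := hρ i
      omega, (mem_filter.1 hz).2⟩)
    fun z h1 h2 i h3 => mem_filter.2 ⟨h1, h2, h3.elim (fun h => ⟨_, h, adj_upd _ _ _ (by ring)⟩)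
      fun h => ⟨_, h, adj_upd _ _ _ (by ring)⟩⟩
  rw [b, b, ← mul_pow, Nat.add_sub_cancel]
  refine ⟨h3, ?_⟩
  have h6 : (((cube x ⌊r⌋₊).filter (· ∈ M)).card : ℝ) * ((cube y (⌊r⌋₊ - ρ)).filter (· ∈ Mᶜ)).card ≤
      (d + 1) * ((cube x ⌊r⌋₊).filter (· ∈ vb M)).card * (2 * ⌊r⌋₊ + 1) ^ (d + 2) := by
    exact_mod_cast h5
  have h7 : (2 * ⌊r⌋₊ + 1 : ℝ) ^ (d + 2) ≤ (3 * r) ^ (d + 2) :=
    pow_le_pow_left₀ (by positivity) (by linarith) _
  have h8 := (mul_le_mul h3 h4 (by positivity) (by positivity)).trans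
    (h6.trans (mul_le_mul_of_nonneg_left h7 (by positivity)))
  rw [div_mul_eq_mul_div, div_le_iff₀ (by positivity)]
  refine le_of_mul_le_mul_right (le_trans (le_of_eq ?_) (h8.trans (le_of_eq ?_)))
    (pow_pos r0 (d + 2))
  · ring
  · ring

end Pool.Agent.Results.MP_f12303_co.Yes
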